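import Pool.Agent.H.MP_9b9b31_co.A

namespace Pool.Agent.Results.MP_33e66b_co.Yes

open Pool.Agent.H.MP_9b9b31_co SimpleGraph Finset

/-- `G` is a `g`-map graph: it is the half-square of a bipartite graph (incidence relation `r` between the nations `X`
and the points `Y`) drawn in the 1-skeleton of a triangulated surface of Euler genus `g`. -/
def MapGraph {X : Type} (G : SimpleGraph X) (g : ℕ) : Prop :=
  ∃ (n : ℕ) (T : Finset (Finset (Fin n))) (Y : Type) (r : X → Y → Prop) (φ : X ⊕ Y → Fin n),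
    Surf T g ∧ φ.Injective ∧ (∀ x y, r x y → (skel T).Adj (φ (.inl x)) (φ (.inr y))) ∧
    ∀ u v, G.Adj u v ↔ u ≠ v ∧ ∃ y, r u y ∧ r v y

/-- `G` has clique cover degeneracy at most `k`. -/
def CCDle {X : Type} (G : SimpleGraph X) (k : ℕ) : Prop :=
  ∀ S : Set X, S.Nonempty → ∃ v ∈ S, ∃ C : Fin k → Set X, (∀ i, G.IsClique (C i)) ∧ ⋃ i, C i = {w ∈ S | G.Adj v w}

lemma bip {X Y : Type} {n g l : ℕ} {T : Finset (Finset (Fin n))} (hT : Surf T g) {φ : X ⊕ Y → Fin n} (hφ : φ.Injective)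
    (A : Finset X) (B : Finset Y) (R : Finset (X × Y))
    (hR : ∀ p ∈ R, p.1 ∈ A ∧ p.2 ∈ B ∧ (skel T).Adj (φ (.inl p.1)) (φ (.inr p.2)))
    (h : l = 4 ∨ l = 5 ∧ ∀ a b c d, (a, c) ∈ R → (a, d) ∈ R → (b, c) ∈ R → (b, d) ∈ R → a = b ∨ c = d) :
    l * #R ≤ l * (#A + #B + g) + 2 * #R := by
  classical
  let H : SimpleGraph (Fin n) := fromRel fun u v => ∃ p ∈ R, u = φ (.inl p.1) ∧ v = φ (.inr p.2)
  have h1 : H.edgeFinset = R.image fun p => s(φ (.inl p.1), φ (.inr p.2)) := by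
    ext e
    induction e using Sym2.ind with | _ u v => ?_
    simp only [mem_edgeFinset, mem_edgeSet, H, fromRel_adj, mem_image]
    refine ⟨?_, fun ⟨p, a, b⟩ => ?_⟩
    · rintro ⟨-, ⟨p, a, rfl, rfl⟩ | ⟨p, a, rfl, rfl⟩⟩
      exacts [⟨p, a, rfl⟩, ⟨p, a, Sym2.eq_swap⟩]
    · rcases Sym2.eq_iff.1 b with ⟨rfl, rfl⟩ | ⟨rfl, rfl⟩
      exacts [⟨by simp [hφ.eq_iff], .inl ⟨p, a, rfl, rfl⟩⟩, ⟨by simp [hφ.eq_iff], .inr ⟨p, a, rfl, rfl⟩⟩]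
  have h2 := euler (l := l) hT (H := H) (by
    rintro u v ⟨-, ⟨p, a, rfl, rfl⟩ | ⟨p, a, rfl, rfl⟩⟩
    exacts [(hR p a).2.2, (hR p a).2.2.symm]) (le_egirth.2 fun a w hw => by
      have h3 := hw.three_le_length
      refine Nat.cast_le.2 (le_of_not_gt fun h4 => ?_)
      have h5 := hw.support_nodup
      rcases w with _ | ⟨e1, _ | ⟨e2, _ | ⟨e3, _ | ⟨e4, _ | ⟨e5, w⟩⟩⟩⟩⟩ <;> simp only [Walk.length_cons, Walk.length_nil] at h3 h4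
      · omega
      · omega
      · omega
      · obtain ⟨-, ⟨p, -, a, b⟩ | ⟨p, -, b, a⟩⟩ := e1 <;> obtain ⟨-, ⟨q, -, c, d⟩ | ⟨q, -, d, c⟩⟩ := e2 <;>
          obtain ⟨-, ⟨s, -, e, f⟩ | ⟨s, -, f, e⟩⟩ := e3 <;> simp_all [hφ.eq_iff]
      · obtain ⟨-, h⟩ := h.resolve_left (by omega)
        simp at h5
        obtain ⟨-, ⟨p, p', a, b⟩ | ⟨p, p', b, a⟩⟩ := e1 <;> obtain ⟨-, ⟨q, q', c, d⟩ | ⟨q, q', d, c⟩⟩ := e2 <;>
          obtain ⟨-, ⟨s, s', e, f⟩ | ⟨s, s', f, e⟩⟩ := e3 <;> obtain ⟨-, ⟨t, t', i, j⟩ | ⟨t, t', j, i⟩⟩ := e4 <;>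
          simp_all [hφ.eq_iff] <;> grind
      · omega) (A.image (fun x => φ (.inl x)) ∪ B.image fun y => φ (.inr y)) (by
    rintro u v ⟨-, ⟨p, a, rfl, rfl⟩ | ⟨p, a, rfl, rfl⟩⟩
    exacts [mem_union_left _ (mem_image_of_mem _ (hR p a).1), mem_union_right _ (mem_image_of_mem _ (hR p a).2.1)])
  rw [h1, card_image_of_injective _ fun p q e => by simpa [hφ.eq_iff, Prod.ext_iff] using e] at h2
  exact h2.trans (by gcongr; exact (card_union_le _ _).trans (add_le_add card_image_le card_image_le))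

theorem result (g : ℕ) : ∃ c : ℕ, ∀ (X : Type) (G : SimpleGraph X), MapGraph G g → CCDle G c := by
  classical
  refine ⟨12 + 12 * g, fun X G ⟨n, T, Y, r, φ, hT, hφ, h1, h2⟩ S hS => ?_⟩
  have := Fintype.ofInjective _ (hφ.comp Sum.inl_injective)
  have := Fintype.ofInjective _ (hφ.comp Sum.inr_injective)
  have h3 : ∀ e : G.edgeSet, ∃ y, ∀ x ∈ e.1, r x y := by
    rintro ⟨e, he⟩
    induction e using Sym2.ind with | _ u v => ?_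
    simpa using ((h2 u v).1 he).2
  choose w hw using h3
  let B : Finset Y := {y | ∃ e : G.edgeSet, (∀ x ∈ e.1, x ∈ S) ∧ w e = y}
  have h4 : ∀ y : B, ∃ e : G.edgeSet, (∀ x ∈ e.1, x ∈ S) ∧ w e = y := fun y => by simpa [B] using y.2
  choose p p1 p2 using h4
  have h5 := bip (l := 5) hT hφ S.toFinset B {q | ∃ h : q.2 ∈ B, q.1 ∈ (p ⟨_, h⟩).1} (fun q h => by
    obtain ⟨a, b⟩ := (mem_filter.1 h).2
    exact ⟨Set.mem_toFinset.2 (p1 _ _ b), a, h1 _ _ ((congrArg (r q.1) (p2 ⟨_, a⟩)).mp (hw _ _ b))⟩) (.inr ⟨rfl, fun a b c d e1 e2 e3 e4 => by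
      obtain ⟨x, e1⟩ := (mem_filter.1 e1).2
      obtain ⟨y, e2⟩ := (mem_filter.1 e2).2
      obtain ⟨_, e3⟩ := (mem_filter.1 e3).2
      obtain ⟨_, e4⟩ := (mem_filter.1 e4).2
      refine or_iff_not_imp_left.2 fun h => (p2 ⟨c, x⟩).symm.trans (.trans (congrArg w (Subtype.ext ?_)) (p2 ⟨d, y⟩))
      exact ((Sym2.mem_and_mem_iff h).1 ⟨e1, e3⟩).trans ((Sym2.mem_and_mem_iff h).1 ⟨e2, e4⟩).symm⟩)
  have h6 : #B * 2 ≤ #{q : X × Y | ∃ h : q.2 ∈ B, q.1 ∈ (p ⟨_, h⟩).1} := by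
    rw [mul_comm]
    refine mul_card_image_le_card_of_maps_to (f := Prod.snd) (fun q h => (mem_filter.1 h).2.1) 2 fun y hy => ?_
    obtain ⟨u, v, e⟩ : ∃ u v, s(u, v) = (p ⟨y, hy⟩).1 := (Quot.exists_rep _).elim fun (z : X × X) e => ⟨z.1, z.2, e⟩
    refine one_lt_card.2 ⟨(u, y), ?_, (v, y), ?_, fun h => G.ne_of_adj (show s(u, v) ∈ G.edgeSet from
      e ▸ (p ⟨y, hy⟩).2) (congrArg Prod.fst h)⟩ <;> simp [hy, ← e]
  have h7 := bip (l := 4) hT hφ S.toFinset B {q | q.1 ∈ S ∧ q.2 ∈ B ∧ r q.1 q.2} (fun q h => by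
    obtain ⟨a, b, c⟩ := (mem_filter.1 h).2
    exact ⟨Set.mem_toFinset.2 a, b, h1 _ _ c⟩) (.inl rfl)
  have h8 := card_pos.2 (Set.toFinset_nonempty.2 hS)
  obtain ⟨v, hv, h9⟩ := exists_card_fiber_le_of_card_le_mul (f := Prod.fst) (n := 12 + 12 * g)
    (s := {q : X × Y | q.1 ∈ S ∧ q.2 ∈ B ∧ r q.1 q.2}) (Set.toFinset_nonempty.2 hS) (by nlinarith)
  obtain ⟨e⟩ := Function.Embedding.nonempty_of_card_le (β := Fin (12 + 12 * g)) ((Fintype.card_coe _).trans_le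
    (h9.trans_eq (Fintype.card_fin _).symm))
  refine ⟨v, Set.mem_toFinset.1 hv, fun i => {x ∈ S | v ≠ x ∧ ∃ q, e q = i ∧ r x q.1.2}, fun i => ?_, Set.ext fun x => ?_⟩
  · rintro a ⟨-, -, q, rfl, b⟩ c ⟨-, -, q', d, f⟩ h
    exact (h2 _ _).2 ⟨h, _, b, e.injective d ▸ f⟩
  · refine Set.mem_iUnion.trans ⟨fun ⟨_, a, b, q, _, d⟩ => ⟨a, (h2 _ _).2 ⟨b, _, ?_, d⟩⟩, fun ⟨a, b⟩ =>
      ⟨e ⟨(v, w ⟨s(v, x), b⟩), ?_⟩, a, b.ne, _, rfl, hw _ _ (by simp)⟩⟩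
    · obtain ⟨f, i⟩ := mem_filter.1 q.2
      exact (congrArg (r · _) i).mp (mem_filter.1 f).2.2.2
    · simp only [mem_filter, mem_univ, true_and, and_true, B]
      exact ⟨Set.mem_toFinset.1 hv, ⟨_, by simpa [a] using hv, rfl⟩, hw _ _ (by simp)⟩

end Pool.Agent.Results.MP_33e66b_co.Yes
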